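import Mathlib

set_option autoImplicit false

namespace Pool.Agent.H.MP_242373_co

open unitInterval Set Topology Filter

/-- A group valued holonomy for paths inside `Y`. -/
structure Hol (X : Type) [TopologicalSpace X] (Y : Set X) (G : Type) [Group G] where
  h : (I → X) → G
  mul : ∀ {a b c : X} (p : Path a b) (q : Path b c), (∀ t, p t ∈ Y) → (∀ t, q t ∈ Y) →
    h (p.trans q) = h p * h q
  htp : ∀ {a b : X} (p q : Path a b) (F : p.Homotopy q), (∀ t, F t ∈ Y) → h p = h q

variable {G : Type} [Group G]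

/-- congruence modulo a subgroup acting on the left -/
def R (H : Subgroup G) (x y : G) : Prop := x * y⁻¹ ∈ H

theorem R.rfl' (H : Subgroup G) (x : G) : R H x x := by simp [R]

theorem R.symm {H : Subgroup G} {x y : G} (h : R H x y) : R H y x := by
  have := H.inv_mem h
  simpa [R] using this

theorem R.trans {H : Subgroup G} {x y z : G} (h : R H x y) (h' : R H y z) : R H x z := by
  have := H.mul_mem h h'
  simpa [R, mul_assoc] using this

theorem R.mul {H : Subgroup G} {x y : G} (h : R H x y) (z : G) : R H (x * z) (y * z) := by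
  simpa [R, mul_assoc] using h

theorem R.of_eq {H : Subgroup G} {x y : G} (h : x = y) : R H x y := h ▸ R.rfl' H x

theorem R.cancel {H : Subgroup G} {x y : G} (z : G) (h : R H (x * z) (y * z)) : R H x y := by
  simpa using h.mul z⁻¹

section gen
variable {X X' : Type} [TopologicalSpace X] [TopologicalSpace X'] {Y : Set X}

/-- pull back -/
def Hol.pull (ω : Hol X Y G) (f : C(X', X)) (Y' : Set X') (hf : ∀ x ∈ Y', f x ∈ Y) :
    Hol X' Y' G where
  h g := ω.h (f ∘ g)
  mul p q hp hq := by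
    have := ω.mul (p.map f.continuous) (q.map f.continuous) (fun t => hf _ (hp t))
      (fun t => hf _ (hq t))
    rw [← Path.map_trans] at this
    exact this
  htp p q F hF := ω.htp (p.map f.continuous) (q.map f.continuous) (F.map f)
    (fun t => hf _ (hF t))

/-- a trivialisation modulo `H` over `Z` -/
def Triv (ω : Hol X Y G) (H : Subgroup G) (Z : Set X) (φ : X → G) : Prop :=
  ∀ (a b : X) (p : Path a b), (∀ t, p t ∈ Z) → R H (φ a * ω.h p) (φ b)

theorem Triv.mono {ω : Hol X Y G} {H : Subgroup G} {Z Z' : Set X} {φ : X → G}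
    (h : Triv ω H Z φ) (hZ : Z' ⊆ Z) : Triv ω H Z' φ :=
  fun a b p hp => h a b p (fun t => hZ (hp t))

theorem Hol.eq_of_contr (ω : Hol X Y G) (U : Set X) [ContractibleSpace U] (hU : U ⊆ Y)
    {a b : X} (p q : Path a b) (hp : ∀ t, p t ∈ U) (hq : ∀ t, q t ∈ U) : ω.h p = ω.h q := by
  have ha : a ∈ U := p.source ▸ hp 0
  have hb : b ∈ U := p.target ▸ hp 1
  let p' : Path (⟨a, ha⟩ : U) ⟨b, hb⟩ :=
    ⟨⟨fun t => ⟨p t, hp t⟩, p.continuous.subtype_mk _⟩, by simp, by simp⟩
  let q' : Path (⟨a, ha⟩ : U) ⟨b, hb⟩ :=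
    ⟨⟨fun t => ⟨q t, hq t⟩, q.continuous.subtype_mk _⟩, by simp, by simp⟩
  obtain ⟨F⟩ := SimplyConnectedSpace.paths_homotopic p' q'
  exact ω.htp (p'.map continuous_subtype_val) (q'.map continuous_subtype_val)
    (F.map ⟨Subtype.val, continuous_subtype_val⟩) (fun t => hU (F t).2)

theorem trans_mem {Z : Set X} {a b c : X} (p : Path a b) (q : Path b c) (hp : ∀ t, p t ∈ Z)
    (hq : ∀ t, q t ∈ Z) (t : I) : (p.trans q) t ∈ Z := by
  have : (p.trans q) t ∈ range (p.trans q) := mem_range_self t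
  rw [Path.trans_range] at this
  rcases this with ⟨s, hs⟩ | ⟨s, hs⟩
  · exact hs ▸ hp s
  · exact hs ▸ hq s

end gen

section vec
variable {E : Type} [NormedAddCommGroup E] [NormedSpace ℝ E] {Y : Set E}

/-- holonomy of the straight segment -/
noncomputable def Hol.g (ω : Hol E Y G) (a b : E) : G := ω.h (Path.segment a b)

theorem seg_mem {U : Set E} {a b : E} (h : segment ℝ a b ⊆ U) (t : I) :
    Path.segment a b t ∈ U := by
  apply h
  rw [← Path.range_segment]
  exact mem_range_self t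

theorem Hol.star (ω : Hol E Y G) {U : Set E} {c : E} (hs : StarConvex ℝ c U) (hc : c ∈ U)
    (hU : U ⊆ Y) {a b : E} (p : Path a b) (hp : ∀ t, p t ∈ U) :
    ω.g c a * ω.h p = ω.g c b := by
  have ha : a ∈ U := p.source ▸ hp 0
  have hb : b ∈ U := p.target ▸ hp 1
  have := hs.contractibleSpace ⟨c, hc⟩
  have h1 : ∀ t, Path.segment c a t ∈ U := seg_mem (hs.segment_subset ha)
  have h2 : ∀ t, Path.segment c b t ∈ U := seg_mem (hs.segment_subset hb)
  unfold Hol.g
  rw [← ω.mul _ _ (fun t => hU (h1 t)) (fun t => hU (hp t))]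
  exact ω.eq_of_contr U hU _ _ (trans_mem _ _ h1 hp) h2

theorem Hol.coc (ω : Hol E Y G) {W : Set E} (hW : Convex ℝ W) (hU : W ⊆ Y) {a b c : E}
    (ha : a ∈ W) (hb : b ∈ W) (hc : c ∈ W) : ω.g a b * ω.g b c = ω.g a c :=
  ω.star (hW.starConvex ha) ha hU (Path.segment b c) (seg_mem (hW.segment_subset hb hc))

theorem Hol.g_self (ω : Hol E Y G) {a : E} (ha : a ∈ Y) : ω.g a a = 1 := by
  have := ω.coc (convex_singleton a) (by simpa using ha) (mem_singleton a) (mem_singleton a)
    (mem_singleton a)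
  simpa using this

theorem Triv.seg {ω : Hol E Y G} {H : Subgroup G} {Z : Set E} {φ : E → G} (h : Triv ω H Z φ)
    {a b : E} (hab : segment ℝ a b ⊆ Z) : R H (φ a * ω.g a b) (φ b) :=
  h a b _ (seg_mem hab)

end vec

theorem local_global {X : Type} [TopologicalSpace X] {Y : Set X} (ω : Hol X Y G)
    (H : Subgroup G) (Z : Set X) (hZ : Z ⊆ Y) (φ : X → G)
    (hloc : ∀ z ∈ Z, ∃ O, IsOpen O ∧ z ∈ O ∧ Triv ω H (Z ∩ O) φ) : Triv ω H Z φ := by
  intro a b p hp
  have hext : ∀ s : ℝ, p.extend s ∈ Z := by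
    intro s
    have : p.extend s ∈ range p.extend := mem_range_self s
    rw [Path.extend_range] at this
    obtain ⟨t, ht⟩ := this
    exact ht ▸ hp t
  let ω' : Hol ℝ univ G := ω.pull p.extend univ (fun x _ => hZ (hext x))
  let P : ℝ → Prop := fun t => R H (φ a * ω'.g 0 t) (φ (p.extend t))
  have hP : IsLocallyConstant P := by
    rw [IsLocallyConstant.iff_eventually_eq]
    intro s
    obtain ⟨O, hO, hs, hT⟩ := hloc _ (hext s)
    have hO' : IsOpen (p.extend ⁻¹' O) := hO.preimage p.continuous_extend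
    obtain ⟨ε, hε, hball⟩ := Metric.isOpen_iff.1 hO' s hs
    filter_upwards [Metric.ball_mem_nhds s hε] with t ht
    have hseg : segment ℝ s t ⊆ Metric.ball s ε :=
      (convex_ball s ε).segment_subset (Metric.mem_ball_self hε) ht
    have h1 := hT _ _ ((Path.segment s t).map p.continuous_extend)
      (fun r => ⟨hext _, hball (seg_mem hseg r)⟩)
    have h1' : R H (φ (p.extend s) * ω'.g s t) (φ (p.extend t)) := h1
    have h2 : ω'.g 0 s * ω'.g s t = ω'.g 0 t :=
      ω'.coc convex_univ subset_rfl (mem_univ _) (mem_univ _) (mem_univ _)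
    apply propext
    constructor
    · intro h3
      apply R.cancel (ω'.g s t)
      rw [mul_assoc, h2]
      exact R.trans h3 h1'.symm
    · intro h3
      have h4 := R.mul h3 (ω'.g s t)
      rw [mul_assoc, h2] at h4
      exact h4.trans h1'
  have h0 : P 0 := by
    show R H _ _
    rw [ω'.g_self (mem_univ _)]
    simp [R]
  have h1 : P 1 := by rw [← hP.apply_eq_of_preconnectedSpace 0 1]; exact h0
  have h2 : ω'.g 0 1 = ω.h p := by
    show ω.h _ = ω.h _
    congr 1
    funext t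
    simp [Path.segment_apply, AffineMap.lineMap_apply]
  have h3 : R H (φ a * ω'.g 0 1) (φ (p.extend 1)) := h1
  rw [h2, Path.extend_one] at h3
  exact h3

theorem cover {E : Type} [NormedAddCommGroup E] [NormedSpace ℝ E] {Y : Set E} (ω : Hol E Y G)
    (H : Subgroup G) (Z : Set E) (hZ : Z ⊆ Y) {ι : Type} [Nonempty ι] (S : Set ι) (O : ι → Set E)
    (c : ι → E) (a : ι → G) (hO : ∀ k, IsOpen (O k))
    (hcov : ∀ x ∈ Z, ∃ k ∈ S, x ∈ O k)
    (hst : ∀ k ∈ S, StarConvex ℝ (c k) (Z ∩ O k)) (hc : ∀ k ∈ S, c k ∈ Z ∩ O k)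
    (hcomp : ∀ j ∈ S, ∀ k ∈ S, ∀ x ∈ Z, x ∈ O j → x ∈ O k →
      R H (a j * ω.g (c j) x) (a k * ω.g (c k) x)) :
    ∃ φ : E → G, Triv ω H Z φ ∧ ∀ k ∈ S, ∀ x ∈ Z, x ∈ O k → R H (φ x) (a k * ω.g (c k) x) := by
  classical
  choose! κ hκS hκO using hcov
  have key : ∀ k ∈ S, ∀ x ∈ Z, x ∈ O k →
      R H (a (κ x) * ω.g (c (κ x)) x) (a k * ω.g (c k) x) :=
    fun k hk x hx hxk => hcomp _ (hκS x hx) k hk x hx (hκO x hx) hxk
  refine ⟨fun x => a (κ x) * ω.g (c (κ x)) x, ?_, key⟩
  apply local_global ω H Z hZ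
  intro z hz
  refine ⟨O (κ z), hO _, hκO z hz, ?_⟩
  intro x y p hp
  have hx : x ∈ Z ∩ O (κ z) := p.source ▸ hp 0
  have hy : y ∈ Z ∩ O (κ z) := p.target ▸ hp 1
  have h1 := ω.star (hst _ (hκS z hz)) (hc _ (hκS z hz)) (fun _ h => hZ h.1) p hp
  have h2 := (key _ (hκS z hz) x hx.1 hx.2).mul (ω.h p)
  rw [mul_assoc (a (κ z)), h1] at h2
  exact h2.trans (key _ (hκS z hz) y hy.1 hy.2).symm

section pi
variable {X : Type} [TopologicalSpace X]

open Classical in
/-- based class of a path class -/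
noncomputable def cls (y0 : X) {a b : X} (P : Path.Homotopic.Quotient a b) :
    FundamentalGroup X y0 :=
  if h : Joined y0 a ∧ Joined y0 b then
    (FundamentalGroup.fromPath (((Path.Homotopic.Quotient.mk h.1.somePath).trans P).trans
      (Path.Homotopic.Quotient.mk h.2.somePath).symm))⁻¹
  else 1

theorem cls_mul (y0 : X) {a b c : X} (p : Path a b) (q : Path b c) :
    cls y0 (Path.Homotopic.Quotient.mk (p.trans q)) =
      cls y0 (Path.Homotopic.Quotient.mk p) * cls y0 (Path.Homotopic.Quotient.mk q) := by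
  by_cases ha : Joined y0 a
  · have hb : Joined y0 b := ha.trans ⟨p⟩
    have hc : Joined y0 c := hb.trans ⟨q⟩
    unfold cls
    rw [dif_pos ⟨ha, hc⟩, dif_pos ⟨ha, hb⟩, dif_pos ⟨hb, hc⟩, ← mul_inv_rev,
      FundamentalGroup.mul_def]
    congr 1
    simp only [Path.Homotopic.Quotient.mk_trans, Path.Homotopic.Quotient.trans_assoc]
    rw [← Path.Homotopic.Quotient.trans_assoc (Path.Homotopic.Quotient.symm _),
      Path.Homotopic.Quotient.symm_trans, Path.Homotopic.Quotient.refl_trans]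
  · have hb : ¬ Joined y0 b := fun h => ha (h.trans ⟨p.symm⟩)
    unfold cls
    rw [dif_neg (fun h => ha h.1), dif_neg (fun h => ha h.1), dif_neg (fun h => hb h.1), one_mul]

theorem cls_surj (y0 : X) (g : FundamentalGroup X y0) :
    ∃ p : Path y0 y0, cls y0 (Path.Homotopic.Quotient.mk p) = g := by
  have h0 : Joined y0 y0 := Joined.refl y0
  let τ : FundamentalGroup X y0 :=
    FundamentalGroup.fromPath (Path.Homotopic.Quotient.mk h0.somePath)
  obtain ⟨p, hp⟩ := Path.Homotopic.Quotient.mk_surjective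
    (FundamentalGroup.toPath (τ * g⁻¹ * τ⁻¹))
  refine ⟨p, ?_⟩
  unfold cls
  rw [dif_pos ⟨h0, h0⟩, hp]
  have : (FundamentalGroup.fromPath (((Path.Homotopic.Quotient.mk h0.somePath).trans
      (FundamentalGroup.toPath (τ * g⁻¹ * τ⁻¹))).trans
      (Path.Homotopic.Quotient.mk h0.somePath).symm)) = τ⁻¹ * ((τ * g⁻¹ * τ⁻¹) * τ) := rfl
  rw [this]
  group

/-- lift of a path into a subset -/
def lift (Y : Set X) (g : I → X) (hg : Continuous g ∧ ∀ t, g t ∈ Y) :
    Path (⟨g 0, hg.2 0⟩ : Y) ⟨g 1, hg.2 1⟩ :=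
  ⟨⟨fun t => ⟨g t, hg.2 t⟩, hg.1.subtype_mk _⟩, rfl, rfl⟩

theorem cls_congr (y0 : X) {a b a' b' : X} (p : Path a b) (q : Path a' b') (h : ∀ t, p t = q t) :
    cls y0 (Path.Homotopic.Quotient.mk p) = cls y0 (Path.Homotopic.Quotient.mk q) := by
  have ha : a = a' := by rw [← p.source, h, q.source]
  have hb : b = b' := by rw [← p.target, h, q.target]
  subst ha hb
  have : p = q := by ext t; exact h t
  rw [this]

/-- lift of a path with prescribed endpoints -/
def lift' (Y : Set X) {a b : X} (p : Path a b) (hp : ∀ t, p t ∈ Y) :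
    Path (⟨a, p.source ▸ hp 0⟩ : Y) ⟨b, p.target ▸ hp 1⟩ :=
  ⟨⟨fun t => ⟨p t, hp t⟩, p.continuous.subtype_mk _⟩, by simp, by simp⟩

open Classical in
/-- underlying function of the canonical holonomy -/
noncomputable def piH (Y : Set X) (y0 : Y) (g : I → X) : FundamentalGroup Y y0 :=
  if hg : Continuous g ∧ ∀ t, g t ∈ Y then cls y0 (Path.Homotopic.Quotient.mk (lift Y g hg))
  else 1

theorem piH_eq (Y : Set X) (y0 : Y) {a b : X} (p : Path a b) (hp : ∀ t, p t ∈ Y) {a' b' : Y}
    (q : Path a' b') (hq : ∀ t, (q t : X) = p t) :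
    piH Y y0 p = cls y0 (Path.Homotopic.Quotient.mk q) := by
  unfold piH
  rw [dif_pos ⟨p.continuous, hp⟩]
  apply cls_congr
  intro t
  exact Subtype.ext (hq t).symm

/-- canonical holonomy with values in the fundamental group -/
noncomputable def piHol (Y : Set X) (y0 : Y) : Hol X Y (FundamentalGroup Y y0) where
  h := piH Y y0
  mul p q hp hq := by
    rw [piH_eq Y y0 p hp (lift' Y p hp) (fun _ => rfl),
      piH_eq Y y0 q hq (lift' Y q hq) (fun _ => rfl), ← cls_mul]
    apply piH_eq Y y0 _ (trans_mem p q hp hq)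
    intro t
    rw [Path.trans_apply, Path.trans_apply]
    split_ifs <;> rfl
  htp p q F hF := by
    have hp : ∀ t, p t ∈ Y := fun t => by simpa using hF (0, t)
    have hq : ∀ t, q t ∈ Y := fun t => by simpa using hF (1, t)
    rw [piH_eq Y y0 p hp (lift' Y p hp) (fun _ => rfl),
      piH_eq Y y0 q hq (lift' Y q hq) (fun _ => rfl)]
    congr 1
    rw [Path.Homotopic.Quotient.eq]
    refine ⟨⟨⟨⟨fun t => ⟨F t, hF t⟩, F.continuous.subtype_mk _⟩, ?_, ?_⟩, ?_⟩⟩
    · intro t; apply Subtype.ext; simp [lift']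
    · intro t; apply Subtype.ext; simp [lift']
    · intro t x hx
      apply Subtype.ext
      exact F.prop' t x hx

theorem cyclic_of_triv (Y : Set X) (y0 : Y) (m : FundamentalGroup Y y0)
    (φ : X → FundamentalGroup Y y0) (h : Triv (piHol Y y0) (Subgroup.zpowers m) Y φ) :
    IsCyclic (FundamentalGroup Y y0) := by
  refine ⟨⟨(φ y0)⁻¹ * m * φ y0, fun g => ?_⟩⟩
  obtain ⟨p, hp⟩ := cls_surj y0 g
  have h1 := h _ _ (p.map continuous_subtype_val) (fun t => (p t).2)
  have h2 : (piHol Y y0).h (p.map continuous_subtype_val) = g := by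
    rw [← hp]
    exact piH_eq Y y0 _ (fun t => (p t).2) p (fun _ => rfl)
  rw [h2] at h1
  obtain ⟨k, hk⟩ := Subgroup.mem_zpowers_iff.1 h1
  refine ⟨k, ?_⟩
  have h3 : ((φ y0)⁻¹ * m * φ y0) ^ k = (φ y0)⁻¹ * m ^ k * φ y0 := by
    have := conj_zpow (a := (φ y0)⁻¹) (b := m) (i := k)
    simpa using this
  show _ ^ k = g
  rw [h3, hk]
  group

end pi

end Pool.Agent.H.MP_242373_co
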