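import Mathlib
import Pool.Agent.H.MP_242373_co.A

set_option autoImplicit false

namespace Pool.Agent.H.MP_242373_co

open Finset

variable {V : Type} [DecidableEq V] {G : Type} [Group G]

/-- link of a vertex -/
def link (K : Finset (Finset V)) (v : V) : Finset (Finset V) :=
  K.filter (fun σ => v ∉ σ ∧ insert v σ ∈ K)

/-- deletion of a vertex -/
def del (K : Finset (Finset V)) (v : V) : Finset (Finset V) := K.filter (fun σ => v ∉ σ)

/-- closed under subsets -/
def Down (K : Finset (Finset V)) : Prop := ∀ σ ∈ K, ∀ τ : Finset V, τ ⊆ σ → τ ∈ K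

/-- non-evasive complexes -/
inductive NE : Finset (Finset V) → Prop
  | point (v : V) : NE {∅, {v}}
  | step (K : Finset (Finset V)) (v : V) : {v} ∈ K → NE (link K v) → NE (del K v) → NE K

theorem mem_link {K : Finset (Finset V)} {v : V} {σ : Finset V} :
    σ ∈ link K v ↔ σ ∈ K ∧ v ∉ σ ∧ insert v σ ∈ K := by simp [link]

theorem mem_del {K : Finset (Finset V)} {v : V} {σ : Finset V} :
    σ ∈ del K v ↔ σ ∈ K ∧ v ∉ σ := by simp [del]

theorem Down.link {K : Finset (Finset V)} (h : Down K) (v : V) : Down (link K v) := by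
  intro σ hσ τ hτ
  rw [mem_link] at hσ ⊢
  exact ⟨h _ hσ.1 _ hτ, fun hv => hσ.2.1 (hτ hv), h _ hσ.2.2 _ (insert_subset_insert _ hτ)⟩

theorem Down.del {K : Finset (Finset V)} (h : Down K) (v : V) : Down (del K v) := by
  intro σ hσ τ hτ
  rw [mem_del] at hσ ⊢
  exact ⟨h _ hσ.1 _ hτ, fun hv => hσ.2 (hτ hv)⟩

theorem pair_point {v x y : V} (h : ({x, y} : Finset V) ∈ ({∅, {v}} : Finset (Finset V))) :
    x = v ∧ y = v := by
  simp only [mem_insert, mem_singleton] at h
  rcases h with h | h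
  · exact absurd h (insert_ne_empty _ _)
  · have h1 : x ∈ ({v} : Finset V) := h ▸ (by simp)
    have h2 : y ∈ ({v} : Finset V) := h ▸ (by simp)
    exact ⟨mem_singleton.1 h1, mem_singleton.1 h2⟩

theorem pair_self (x : V) : ({x, x} : Finset V) = {x} := by simp

theorem NE.conn {L : Finset (Finset V)} (h : NE L) : Down L →
    (∃ x, {x} ∈ L) ∧ ∀ P : V → Prop, (∀ x y, {x, y} ∈ L → P x → P y) →
      ∀ x y, {x} ∈ L → {y} ∈ L → P x → P y := by
  induction h with
  | point v =>
    intro _
    refine ⟨⟨v, by simp⟩, fun P _ x y hx hy hP => ?_⟩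
    rw [← pair_self x] at hx
    rw [← pair_self y] at hy
    rw [(pair_point hy).1, ← (pair_point hx).1]
    exact hP
  | step K v hv _ _ ih1 ih2 =>
    intro hK
    refine ⟨⟨v, hv⟩, fun P hP x y hx hy hPx => ?_⟩
    obtain ⟨x1, hx1⟩ := (ih1 (hK.link v)).1
    rw [mem_link] at hx1
    have hc := (ih2 (hK.del v)).2 P (fun a b hab => hP a b (mem_del.1 hab).1)
    have hx1d : {x1} ∈ del K v := mem_del.2 ⟨hx1.1, hx1.2.1⟩
    have h1 : P x1 := by
      by_cases hxv : x = v
      · subst hxv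
        exact hP _ _ hx1.2.2 hPx
      · exact hc x x1 (mem_del.2 ⟨hx, by simpa using Ne.symm hxv⟩) hx1d hPx
    by_cases hyv : y = v
    · subst hyv
      exact hP _ _ (pair_comm y x1 ▸ hx1.2.2) h1
    · exact hc x1 y hx1d (mem_del.2 ⟨hy, by simpa using Ne.symm hyv⟩) h1

theorem step_lemma {K : Finset (Finset V)} (hK : Down K) (v : V) (hL : NE (link K v))
    (E : V → V → Prop) (hrefl : E v v) (hsymm : ∀ x y, {x, y} ∈ K → E x y → E y x)
    (htri : ∀ x y z, {x, y, z} ∈ K → E x y → E y z → E x z)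
    (hdel : ∀ x y, {x, y} ∈ K → x ≠ v → y ≠ v → E x y) (x0 : V) (hx0 : {x0} ∈ link K v)
    (h0 : E x0 v) : ∀ x y, {x, y} ∈ K → E x y := by
  have hc := (hL.conn (hK.link v)).2 (fun x => E x v) (by
    intro x y hxy hx
    rw [mem_link] at hxy
    have hxv : x ≠ v := fun h => hxy.2.1 (by simp [h])
    have hyv : y ≠ v := fun h => hxy.2.1 (by simp [h])
    refine htri y x v (hK _ hxy.2.2 _ ?_) (hdel y x (pair_comm x y ▸ hxy.1) hyv hxv) hx
    intro a ha
    simp only [mem_insert, mem_singleton] at ha ⊢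
    tauto)
  have key : ∀ x, {x, v} ∈ K → E x v := by
    intro x hx
    by_cases hxv : x = v
    · rw [hxv]; exact hrefl
    · refine hc x0 x hx0 (mem_link.2 ⟨hK _ hx _ (by simp), by simpa using Ne.symm hxv, ?_⟩) h0
      exact pair_comm x v ▸ hx
  intro x y hxy
  by_cases hyv : y = v
  · subst hyv; exact key x hxy
  · by_cases hxv : x = v
    · subst hxv
      exact hsymm _ _ (pair_comm x y ▸ hxy) (key y (pair_comm x y ▸ hxy))
    · exact hdel x y hxy hxv hyv

theorem exact_gauge (g : V → V → G) {K : Finset (Finset V)} (h : NE K) : Down K →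
    (∀ x y z, {x, y, z} ∈ K → g x y * g y z = g x z) →
    ∃ φ : V → G, ∀ x y, {x, y} ∈ K → φ x * g x y = φ y := by
  induction h with
  | point v =>
    intro _ hg
    refine ⟨fun _ => 1, fun x y hxy => ?_⟩
    rw [(pair_point hxy).1, (pair_point hxy).2]
    have := hg v v v (by simp)
    simpa using this
  | step K v hv hL _ _ ih2 =>
    intro hK hg
    obtain ⟨φ, hφ⟩ := ih2 (hK.del v) (fun x y z h => hg x y z (mem_del.1 h).1)
    obtain ⟨x0, hx0⟩ := (hL.conn (hK.link v)).1
    have hx0v : x0 ≠ v := fun h => (mem_link.1 hx0).2.1 (by simp [h])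
    have hself : ∀ x, {x} ∈ K → g x x = 1 := by
      intro x hx
      have := hg x x x (by simpa using hx)
      simpa using this
    refine ⟨Function.update φ v (φ x0 * g x0 v), ?_⟩
    refine step_lemma hK v hL (fun x y => Function.update φ v (φ x0 * g x0 v) x * g x y =
      Function.update φ v (φ x0 * g x0 v) y) ?_ ?_ ?_ ?_ x0 hx0 ?_
    · beta_reduce
      rw [hself v hv, mul_one]
    · intro x y hxy hE
      beta_reduce at hE ⊢
      rw [← hE, mul_assoc, hg x y x (hK _ hxy _ (by intro c; simp; tauto)),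
        hself x (hK _ hxy _ (by simp)), mul_one]
    · intro x y z hxyz h1 h2
      beta_reduce at h1 h2 ⊢
      rw [← hg x y z hxyz, ← mul_assoc, h1, h2]
    · intro x y hxy hx hy
      beta_reduce
      rw [Function.update_of_ne hx, Function.update_of_ne hy]
      exact hφ x y (mem_del.2 ⟨hxy, by simp [Ne.symm hx, Ne.symm hy]⟩)
    · simp [Function.update_of_ne hx0v]

theorem tri_lemma (H : Subgroup G) (g : V → V → G) (D : V → Prop) {K : Finset (Finset V)}
    (hK : Down K) (hanti : ∀ x y, {x, y} ∈ K → g x y * g y x = 1)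
    (hex : ∀ x y z, {x, y, z} ∈ K → ¬ D x → ¬ D y → ¬ D z → g x y * g y z = g x z)
    (hK1 : ∀ d a b, D d → {d, a, b} ∈ K → R H (g d a * g a b) (g d b))
    (hDD : ∀ d d', D d → D d' → g d d' = 1) (φ : V → G) (hφ : ∀ d, D d → {d} ∈ K → φ d ∈ H) :
    (∀ x y, {x, y} ∈ K → R H (φ x * g x y) (φ y) → R H (φ y * g y x) (φ x)) ∧
    (∀ x y z, {x, y, z} ∈ K → R H (φ x * g x y) (φ y) → R H (φ y * g y z) (φ z) →
      R H (φ x * g x z) (φ z)) := by
  have hs : ∀ x y, {x, y} ∈ K → R H (φ x * g x y) (φ y) → R H (φ y * g y x) (φ x) := by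
    intro x y hxy h
    have := (h.mul (g y x)).symm
    rwa [mul_assoc, hanti x y hxy, mul_one] at this
  refine ⟨hs, ?_⟩
  intro x y z hxyz h1 h2
  by_cases hD : ∃ d, D d ∧ d ∈ ({x, y, z} : Finset V)
  · obtain ⟨d, hd, hdm⟩ := hD
    have hsub : ∀ a b, a ∈ ({x, y, z} : Finset V) → b ∈ ({x, y, z} : Finset V) →
        {d, a, b} ∈ K := by
      intro a b ha hb
      refine hK _ hxyz _ ?_
      intro c hc
      simp only [mem_insert, mem_singleton] at hc
      rcases hc with rfl | rfl | rfl <;> assumption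
    have hx : x ∈ ({x, y, z} : Finset V) := by simp
    have hy : y ∈ ({x, y, z} : Finset V) := by simp
    have hz : z ∈ ({x, y, z} : Finset V) := by simp
    have fw : ∀ a b, a ∈ ({x, y, z} : Finset V) → b ∈ ({x, y, z} : Finset V) →
        R H (φ a * g a b) (φ b) → R H (g d a) (φ a) → R H (g d b) (φ b) := by
      intro a b ha hb hab hSa
      exact ((hK1 d a b hd (hsub a b ha hb)).symm.trans (hSa.mul _)).trans hab
    have hSd : R H (g d d) (φ d) := by
      rw [hDD d d hd hd]
      have := H.inv_mem (hφ d hd (hK _ hxyz _ (by simpa using hdm)))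
      simpa [R] using this
    have hxy : {x, y} ∈ K := hK _ hxyz _ (by intro c; simp; tauto)
    have hyz : {y, z} ∈ K := hK _ hxyz _ (by intro c; simp; tauto)
    have hSx : R H (g d x) (φ x) := by
      simp only [mem_insert, mem_singleton] at hdm
      rcases hdm with rfl | rfl | rfl
      · exact hSd
      · exact fw _ _ hy hx (hs _ _ hxy h1) hSd
      · exact fw _ _ hy hx (hs _ _ hxy h1) (fw _ _ hz hy (hs _ _ hyz h2) hSd)
    have hSz : R H (g d z) (φ z) := fw _ _ hy hz h2 (fw _ _ hx hy h1 hSx)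
    exact ((hSx.symm.mul _).trans (hK1 d x z hd (hsub x z hx hz))).trans hSz
  · have hx : ¬ D x := fun h => hD ⟨x, h, by simp⟩
    have hy : ¬ D y := fun h => hD ⟨y, h, by simp⟩
    have hz : ¬ D z := fun h => hD ⟨z, h, by simp⟩
    rw [← hex x y z hxyz hx hy hz, ← mul_assoc]
    exact (h1.mul _).trans h2

theorem gauge (H : Subgroup G) (g : V → V → G) (D : V → Prop)
    (hDD : ∀ d d', D d → D d' → g d d' = 1) {K : Finset (Finset V)} (h : NE K) : Down K →
    (∀ x y, {x, y} ∈ K → g x y * g y x = 1) → (∀ x, {x} ∈ K → g x x = 1) →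
    (∀ x y z, {x, y, z} ∈ K → ¬ D x → ¬ D y → ¬ D z → g x y * g y z = g x z) →
    (∀ d a b, D d → {d, a, b} ∈ K → R H (g d a * g a b) (g d b)) →
    (∀ d d', D d → D d' → {d} ∈ K → {d'} ∈ K → {d, d'} ∈ K) →
    ∃ φ : V → G, (∀ d, D d → {d} ∈ K → φ d ∈ H) ∧ ∀ x y, {x, y} ∈ K → R H (φ x * g x y) (φ y) := by
  induction h with
  | point v =>
    intro _ _ hself _ _ _
    refine ⟨fun _ => 1, fun _ _ _ => H.one_mem, fun x y hxy => ?_⟩
    rw [(pair_point hxy).1, (pair_point hxy).2, hself v (by simp)]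
    simp [R]
  | step K v hv hL hdl _ ih2 =>
    intro hK hanti hself hex hK1 hinv
    have fin : ∀ (φ : V → G) (x0 : V), {x0} ∈ link K v →
        (∀ d, D d → {d} ∈ del K v → φ d ∈ H) →
        (∀ x y, {x, y} ∈ del K v → R H (φ x * g x y) (φ y)) →
        (D v → φ x0 * g x0 v ∈ H) →
        ∃ φ : V → G, (∀ d, D d → {d} ∈ K → φ d ∈ H) ∧
          ∀ x y, {x, y} ∈ K → R H (φ x * g x y) (φ y) := by
      intro φ x0 hx0 h1 h2 h3
      have hx0v : x0 ≠ v := fun h => (mem_link.1 hx0).2.1 (by simp [h])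
      have h4 : ∀ d, D d → {d} ∈ K → Function.update φ v (φ x0 * g x0 v) d ∈ H := by
        intro d hd hdK
        by_cases hdv : d = v
        · subst hdv
          simpa using h3 hd
        · rw [Function.update_of_ne hdv]
          exact h1 d hd (mem_del.2 ⟨hdK, by simpa using Ne.symm hdv⟩)
      refine ⟨Function.update φ v (φ x0 * g x0 v), h4, ?_⟩
      have ht := tri_lemma H g D hK hanti hex hK1 hDD _ h4
      apply step_lemma hK v hL _ _ ht.1 ht.2 _ x0 hx0
      · simp [Function.update_of_ne hx0v, R]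
      · rw [hself v hv, mul_one]; exact R.rfl' _ _
      · intro x y hxy hx hy
        rw [Function.update_of_ne hx, Function.update_of_ne hy]
        exact h2 x y (mem_del.2 ⟨hxy, by simp [Ne.symm hx, Ne.symm hy]⟩)
    by_cases hc : D v ∧ ∀ d, D d → {d} ∉ del K v
    · obtain ⟨φ, hφ⟩ := exact_gauge g hdl (hK.del v) (by
        intro x y z hxyz
        have hm : ∀ a, a ∈ ({x, y, z} : Finset V) → ¬ D a := fun a ha hd =>
          hc.2 a hd (hK.del v _ hxyz _ (by simpa using ha))
        exact hex x y z (mem_del.1 hxyz).1 (hm x (by simp)) (hm y (by simp)) (hm z (by simp)))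
      obtain ⟨x0, hx0⟩ := (hL.conn (hK.link v)).1
      refine fin (fun x => (φ x0 * g x0 v)⁻¹ * φ x) x0 hx0 (fun d hd h => absurd h (hc.2 d hd))
        ?_ ?_
      · intro x y hxy
        apply R.of_eq
        rw [mul_assoc, hφ x y hxy]
      · intro _
        rw [mul_assoc, inv_mul_cancel]
        exact H.one_mem
    · obtain ⟨φ, hφ1, hφ2⟩ := ih2 (hK.del v) (fun x y h => hanti x y (mem_del.1 h).1)
        (fun x h => hself x (mem_del.1 h).1) (fun x y z h => hex x y z (mem_del.1 h).1)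
        (fun d a b hd h => hK1 d a b hd (mem_del.1 h).1) (by
          intro d d' hd hd' h1 h2
          rw [mem_del] at h1 h2 ⊢
          refine ⟨hinv d d' hd hd' h1.1 h2.1, ?_⟩
          have h3 := h1.2
          have h4 := h2.2
          simp only [mem_insert, mem_singleton] at h3 h4 ⊢
          tauto)
      by_cases hv' : D v
      · have : ∃ d, D d ∧ {d} ∈ del K v := by
          by_contra hcon
          exact hc ⟨hv', fun d hd h => hcon ⟨d, hd, h⟩⟩
        obtain ⟨d, hd, hdK⟩ := this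
        refine fin φ d (mem_link.2 ⟨(mem_del.1 hdK).1, (mem_del.1 hdK).2,
          hinv v d hv' hd hv (mem_del.1 hdK).1⟩) hφ1 hφ2 (fun _ => ?_)
        rw [hDD d v hd hv', mul_one]
        exact hφ1 d hd hdK
      · obtain ⟨x0, hx0⟩ := (hL.conn (hK.link v)).1
        exact fin φ x0 hx0 hφ1 hφ2 (fun h => absurd h hv')

theorem gauge2 (H : Subgroup G) (g : V → V → G) (u w : V) (huw : u ≠ w) {K : Finset (Finset V)}
    (h : NE K) (hK : Down K) (he : {u, w} ∈ K)
    (hex : ∀ x y z, {x, y, z} ∈ K → x ≠ u → x ≠ w → y ≠ u → y ≠ w → z ≠ u → z ≠ w →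
      g x y * g y z = g x z) (ψu ψw : V → G)
    (hu : ∀ x y, {u, x, y} ∈ K → x ≠ u → x ≠ w → y ≠ u → y ≠ w → R H (ψu x * g x y) (ψu y))
    (hw : ∀ x y, {w, x, y} ∈ K → x ≠ u → x ≠ w → y ≠ u → y ≠ w → R H (ψw x * g x y) (ψw y))
    (huw' : ∀ x, {u, w, x} ∈ K → x ≠ u → x ≠ w → R H (ψu x) (ψw x)) :
    ∃ φ : V → G, ∀ x y, {x, y} ∈ K → x ≠ u → x ≠ w → y ≠ u → y ≠ w →
      R H (φ x * g x y) (φ y) := by
  let ψ : V → V → G := fun d x => if d = u then ψu x else ψw x
  let D : V → Prop := fun d => d = u ∨ d = w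
  let g' : V → V → G := fun x y =>
    if D x then (if D y then 1 else ψ x y) else (if D y then (ψ y x)⁻¹ else g x y)
  have hself : ∀ x, {x} ∈ K → ¬ D x → g x x = 1 := by
    intro x hx hD
    have h1 : x ≠ u := fun h => hD (Or.inl h)
    have h2 : x ≠ w := fun h => hD (Or.inr h)
    have := hex x x x (by simpa using hx) h1 h2 h1 h2 h1 h2
    simpa using this
  have hψ1 : ∀ d a b, D d → ¬ D a → ¬ D b → {d, a, b} ∈ K → R H (ψ d a * g a b) (ψ d b) := by
    intro d a b hd ha hb hm
    simp only [D, not_or] at ha hb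
    rcases hd with rfl | rfl
    · simpa [ψ] using hu a b hm ha.1 ha.2 hb.1 hb.2
    · simpa [ψ, huw.symm] using hw a b hm ha.1 ha.2 hb.1 hb.2
  have hψ2 : ∀ d d' a, D d → D d' → ¬ D a → {d, d', a} ∈ K → R H (ψ d a) (ψ d' a) := by
    intro d d' a hd hd' ha hm
    simp only [D, not_or] at ha
    rcases hd with rfl | rfl <;> rcases hd' with rfl | rfl
    · exact R.rfl' _ _
    · simpa [ψ, huw.symm] using huw' a hm ha.1 ha.2
    · simpa [ψ, huw.symm] using (huw' a (insert_comm d d' _ ▸ hm) ha.1 ha.2).symm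
    · exact R.rfl' _ _
  obtain ⟨φ, -, hφ⟩ := gauge H g' D (fun d d' hd hd' => by simp [g', hd, hd']) h hK
    (by
      intro x y hxy
      by_cases hx : D x <;> by_cases hy : D y <;> simp [g', hx, hy]
      have hx' := hx
      have hy' := hy
      simp only [D, not_or] at hx' hy'
      rw [hex x y x (hK _ hxy _ (by intro c; simp; tauto)) hx'.1 hx'.2 hy'.1 hy'.2 hx'.1 hx'.2,
        hself x (hK _ hxy _ (by simp)) hx])
    (by
      intro x hx
      by_cases hD : D x <;> simp [g', hD]
      exact hself x hx hD)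
    (by
      intro x y z hm hx hy hz
      simp only [g', hx, hy, hz, if_false]
      simp only [D, not_or] at hx hy hz
      exact hex x y z hm hx.1 hx.2 hy.1 hy.2 hz.1 hz.2)
    (by
      intro d a b hd hm
      by_cases ha : D a <;> by_cases hb : D b <;> simp only [g', hd, ha, hb, if_true, if_false]
      · simp [R]
      · rw [one_mul]
        exact hψ2 a d b ha hd hb (insert_comm d a _ ▸ hm)
      · have := hψ2 d b a hd hb ha (pair_comm a b ▸ hm)
        simpa [R] using this
      · exact hψ1 d a b hd ha hb hm)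
    (by
      intro d d' hd hd' h1 h2
      rcases hd with rfl | rfl <;> rcases hd' with rfl | rfl
      · simpa using h1
      · exact he
      · exact pair_comm d' d ▸ he
      · simpa using h1)
  refine ⟨φ, fun x y hxy h1 h2 h3 h4 => ?_⟩
  have := hφ x y hxy
  have hx : ¬ D x := by simp [D, h1, h2]
  have hy : ¬ D y := by simp [D, h3, h4]
  simpa only [g', hx, hy, if_false] using this

end Pool.Agent.H.MP_242373_co
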