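import Mathlib
import Pool.Agent.H.MP_242373_co.A

set_option autoImplicit false

namespace Pool.Agent.H.MP_242373_co

open Set Topology Filter Metric

variable {G : Type} [Group G]

/-- the plane -/
abbrev E2 := EuclideanSpace ℝ (Fin 2)

/-- four open half planes through `p` -/
def O (p : E2) : Fin 4 → Set E2 :=
  ![{x | p 0 < x 0}, {x | p 1 < x 1}, {x | x 0 < p 0}, {x | x 1 < p 1}]

theorem lin (i : Fin 2) : IsLinearMap ℝ (fun x : E2 => x i) :=
  ⟨fun x y => by simp, fun c x => by simp⟩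

theorem O_convex (p : E2) (k : Fin 4) : Convex ℝ (O p k) := by
  fin_cases k
  · exact convex_halfSpace_gt (lin 0) _
  · exact convex_halfSpace_gt (lin 1) _
  · exact convex_halfSpace_lt (lin 0) _
  · exact convex_halfSpace_lt (lin 1) _

theorem O_open (p : E2) (k : Fin 4) : IsOpen (O p k) := by
  fin_cases k
  · exact isOpen_lt continuous_const (by fun_prop)
  · exact isOpen_lt continuous_const (by fun_prop)
  · exact isOpen_lt (by fun_prop) continuous_const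
  · exact isOpen_lt (by fun_prop) continuous_const

theorem O_ne {p x : E2} {k : Fin 4} (h : x ∈ O p k) : x ≠ p := by
  rintro rfl
  fin_cases k <;> simp [O] at h

theorem O_cov {p x : E2} (h : x ≠ p) : ∃ k, x ∈ O p k := by
  by_contra hc
  push Not at hc
  have h0 := hc 0
  have h1 := hc 1
  have h2 := hc 2
  have h3 := hc 3
  simp [O] at h0 h1 h2 h3
  apply h
  ext i
  fin_cases i
  · exact le_antisymm h0 h2
  · exact le_antisymm h1 h3

theorem O_disj {p x : E2} (k : Fin 4) (h : x ∈ O p k) (h' : x ∈ O p (k + 2)) : False := by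
  fin_cases k <;> simp [O] at h h' <;> linarith

theorem exists_q (p : E2) {ε : ℝ} (hε : 0 < ε) :
    ∃ q : Fin 4 → E2, (∀ k, q k ∈ ball p ε) ∧ (∀ k, q k ∈ O p k) ∧ ∀ k, q k ∈ O p (k + 1) := by
  have hb : ∀ s t : ℝ, s ^ 2 = (ε / 2) ^ 2 → t ^ 2 = (ε / 2) ^ 2 →
      (!₂[p 0 + s, p 1 + t] : E2) ∈ ball p ε := by
    intro s t hs ht
    rw [mem_ball, EuclideanSpace.dist_eq, Real.sqrt_lt' hε]
    simp [Fin.sum_univ_two, Real.dist_eq, sq_abs]
    nlinarith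
  refine ⟨![!₂[p 0 + ε / 2, p 1 + ε / 2], !₂[p 0 + -(ε / 2), p 1 + ε / 2],
    !₂[p 0 + -(ε / 2), p 1 + -(ε / 2)], !₂[p 0 + ε / 2, p 1 + -(ε / 2)]], ?_, ?_, ?_⟩
  · intro k
    fin_cases k
    · exact hb _ _ rfl rfl
    · exact hb _ _ (by ring) rfl
    · exact hb _ _ (by ring) (by ring)
    · exact hb _ _ rfl (by ring)
  · intro k
    fin_cases k <;> simp [O, hε]
  · intro k
    fin_cases k <;> simp [O, hε]

theorem disc (p : E2) (ω : Hol E2 (closedBall 0 1 \ {p}) G) (H : Subgroup G) (q : Fin 4 → E2)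
    (hq : ∀ k, q k ∈ closedBall (0 : E2) 1) (h1 : ∀ k, q k ∈ O p k) (h2 : ∀ k, q k ∈ O p (k + 1))
    (a : Fin 4 → G) (ha : ∀ k, R H (a k * ω.g (q k) (q (k + 1))) (a (k + 1))) :
    ∃ φ : E2 → G, Triv ω H (closedBall 0 1 \ {p}) φ ∧
      ∀ k, ∀ x ∈ closedBall (0 : E2) 1, x ∈ O p k → R H (φ x) (a k * ω.g (q k) x) := by
  have heq : ∀ k, (closedBall (0 : E2) 1 \ {p}) ∩ O p k = closedBall (0 : E2) 1 ∩ O p k := by
    intro k
    ext x
    exact ⟨fun h => ⟨h.1.1, h.2⟩, fun h => ⟨⟨h.1, O_ne h.2⟩, h.2⟩⟩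
  have hconv : ∀ k, Convex ℝ ((closedBall (0 : E2) 1 \ {p}) ∩ O p k) := fun k => by
    rw [heq]; exact (convex_closedBall _ _).inter (O_convex p k)
  have adj : ∀ k, ∀ x ∈ closedBall (0 : E2) 1 \ {p}, x ∈ O p (k + 1) →
      R H (a k * ω.g (q k) x) (a (k + 1) * ω.g (q (k + 1)) x) := by
    intro k x hx hxk
    have := ω.coc (hconv (k + 1)) inter_subset_left ⟨⟨hq k, O_ne (h1 k)⟩, h2 k⟩
      ⟨⟨hq (k + 1), O_ne (h1 (k + 1))⟩, h1 (k + 1)⟩ ⟨hx, hxk⟩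
    rw [← this, ← mul_assoc]
    exact (ha k).mul _
  have hcases : ∀ j k : Fin 4, j = k ∨ k = j + 1 ∨ j = k + 1 ∨ k = j + 2 := by decide
  obtain ⟨φ, hφ, hφ'⟩ := cover ω H _ subset_rfl (univ : Set (Fin 4)) (O p) q a (O_open p)
    (fun x hx => by
      obtain ⟨k, hk⟩ := O_cov hx.2
      exact ⟨k, mem_univ _, hk⟩)
    (fun k _ => (hconv k).starConvex ⟨⟨hq k, O_ne (h1 k)⟩, h1 k⟩)
    (fun k _ => ⟨⟨hq k, O_ne (h1 k)⟩, h1 k⟩)
    (by
      intro j _ k _ x hx hj hk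
      rcases hcases j k with rfl | rfl | rfl | rfl
      · exact R.rfl' _ _
      · exact adj j x hx hk
      · exact (adj k x hx hj).symm
      · exact (O_disj j hj hk).elim)
  exact ⟨φ, hφ, fun k x hx hxk => hφ' k (mem_univ _) x ⟨hx, O_ne hxk⟩ hxk⟩

/-- radial retraction onto the closed unit disc -/
noncomputable def retr (x : E2) : closedBall (0 : E2) 1 :=
  ⟨(max 1 ‖x‖)⁻¹ • x, by
    have h : 0 < max 1 ‖x‖ := lt_of_lt_of_le one_pos (le_max_left _ _)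
    rw [mem_closedBall_zero_iff, norm_smul, norm_inv, Real.norm_eq_abs, abs_of_pos h,
      inv_mul_le_iff₀ h, mul_one]
    exact le_max_right _ _⟩

theorem retr_cont : Continuous retr := by
  apply Continuous.subtype_mk
  have h : Continuous (fun x : E2 => (max 1 ‖x‖)⁻¹) :=
    Continuous.inv₀ (by fun_prop) (fun x => (lt_of_lt_of_le one_pos (le_max_left _ _)).ne')
  exact h.smul continuous_id

theorem retr_eq (x : closedBall (0 : E2) 1) : retr x = x := by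
  apply Subtype.ext
  have := mem_closedBall_zero_iff.1 x.2
  simp [retr, max_eq_left this]

section link
variable {X : Type} [TopologicalSpace X] {Y S : Set X}

/-- parametrisation of `S` by the plane -/
noncomputable def fpar (h : S ≃ₜ closedBall (0 : E2) 1) : C(E2, X) :=
  ⟨fun x => (h.symm (retr x) : X), continuous_subtype_val.comp (h.symm.continuous.comp retr_cont)⟩

open Classical in
/-- chart of `S` -/
noncomputable def kch (h : S ≃ₜ closedBall (0 : E2) 1) (x : X) : E2 :=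
  if hx : x ∈ S then (h ⟨x, hx⟩ : E2) else 0

theorem kch_eq (h : S ≃ₜ closedBall (0 : E2) 1) {x : X} (hx : x ∈ S) :
    kch h x = (h ⟨x, hx⟩ : E2) := dif_pos hx

theorem fpar_h (h : S ≃ₜ closedBall (0 : E2) 1) (x : S) : fpar h (h x : E2) = x := by
  show (h.symm (retr (h x)) : X) = x
  rw [retr_eq, h.symm_apply_apply]

theorem fpar_mem (h : S ≃ₜ closedBall (0 : E2) 1) {z : X} (hz : z ∈ S) {x : E2}
    (hx : x ∈ closedBall (0 : E2) 1 \ {(h ⟨z, hz⟩ : E2)}) : fpar h x ∈ S \ {z} := by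
  refine ⟨(h.symm (retr x)).2, fun hc => hx.2 ?_⟩
  have h1 : h.symm (retr x) = ⟨z, hz⟩ := Subtype.ext hc
  have h2 : retr x = ⟨x, hx.1⟩ := retr_eq ⟨x, hx.1⟩
  rw [← h1, h.apply_symm_apply, h2]
  rfl

theorem h_mem (h : S ≃ₜ closedBall (0 : E2) 1) {z : X} (hz : z ∈ S) {x : X}
    (hx : x ∈ S \ {z}) :
    (h ⟨x, hx.1⟩ : E2) ∈ closedBall (0 : E2) 1 \ {(h ⟨z, hz⟩ : E2)} := by
  refine ⟨(h _).2, fun hc => hx.2 ?_⟩
  have := h.injective (Subtype.ext hc)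
  exact congrArg Subtype.val this

theorem transfer (ω : Hol X Y G) (H : Subgroup G) (h : S ≃ₜ closedBall (0 : E2) 1) {z : X}
    (hz : z ∈ S) (hY : S \ {z} ⊆ Y) (φ : E2 → G)
    (hφ : Triv (ω.pull (fpar h) (closedBall 0 1 \ {(h ⟨z, hz⟩ : E2)})
      (fun _ hx => hY (fpar_mem h hz hx))) H (closedBall 0 1 \ {(h ⟨z, hz⟩ : E2)}) φ) :
    Triv ω H (S \ {z}) (fun x => φ (kch h x)) := by
  intro a b p hp
  have ha : a ∈ S \ {z} := p.source ▸ hp 0
  have hb : b ∈ S \ {z} := p.target ▸ hp 1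
  let p' : Path (h ⟨a, ha.1⟩ : E2) (h ⟨b, hb.1⟩ : E2) :=
    ⟨⟨fun t => (h ⟨p t, (hp t).1⟩ : E2),
      continuous_subtype_val.comp (h.continuous.comp (p.continuous.subtype_mk _))⟩,
      by simp, by simp⟩
  have h1 := hφ _ _ p' (fun t => h_mem h hz (hp t))
  have h2 : (fpar h ∘ p') = p := by
    funext t
    exact fpar_h h ⟨p t, (hp t).1⟩
  have h3 : R H (φ (h ⟨a, ha.1⟩ : E2) * ω.h (fpar h ∘ p')) (φ (h ⟨b, hb.1⟩ : E2)) := h1
  rw [h2] at h3
  show R H (φ (kch h a) * _) (φ (kch h b))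
  rw [kch_eq h ha.1, kch_eq h hb.1]
  exact h3

theorem small_ball (p : E2) : ball p (1 - ‖p‖) ⊆ closedBall (0 : E2) 1 := by
  intro x hx
  rw [mem_ball, dist_eq_norm] at hx
  rw [mem_closedBall_zero_iff]
  have := norm_add_le (x - p) p
  rw [sub_add_cancel] at this
  linarith

theorem link_i (ω : Hol X Y G) (h : S ≃ₜ closedBall (0 : E2) 1) {z : X}
    (hz : z ∈ S) (hp : ‖(h ⟨z, hz⟩ : E2)‖ < 1) (hY : S \ {z} ⊆ Y) :
    ∃ (m : G) (φ : X → G), Triv ω (Subgroup.zpowers m) (S \ {z}) φ := by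
  obtain ⟨q, hq, h1, h2⟩ := exists_q (h ⟨z, hz⟩ : E2) (sub_pos.2 hp)
  let ω' := ω.pull (fpar h) (closedBall 0 1 \ {(h ⟨z, hz⟩ : E2)})
      (fun _ hx => hY (fpar_mem h hz hx))
  obtain ⟨φ, hφ, -⟩ := disc _ ω' (Subgroup.zpowers (ω'.g (q 0) (q 1) * ω'.g (q 1) (q 2) *
      ω'.g (q 2) (q 3) * ω'.g (q 3) (q 0))) q (fun k => small_ball _ (hq k)) h1 h2
    ![1, ω'.g (q 0) (q 1), ω'.g (q 0) (q 1) * ω'.g (q 1) (q 2),
      ω'.g (q 0) (q 1) * ω'.g (q 1) (q 2) * ω'.g (q 2) (q 3)]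
    (by
      intro k
      fin_cases k
      · apply R.of_eq; simp
      · apply R.of_eq; simp
      · apply R.of_eq; simp
      · simp [R])
  exact ⟨_, _, transfer ω _ h hz hY φ hφ⟩

theorem link_ii (ω : Hol X Y G) (H : Subgroup G) (h : S ≃ₜ closedBall (0 : E2) 1) {z : X}
    (hz : z ∈ S) (hp : ‖(h ⟨z, hz⟩ : E2)‖ < 1) (hY : S \ {z} ⊆ Y) (N : Set X) (hN : IsOpen N)
    (hzN : z ∈ N) (φ0 : X → G) (h0 : Triv ω H ((S \ {z}) ∩ N) φ0) :
    ∃ φ : X → G, Triv ω H (S \ {z}) φ ∧ ∀ᶠ x in 𝓝[S] z, x ≠ z → R H (φ x) (φ0 x) := by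
  set p : E2 := (h ⟨z, hz⟩ : E2) with hpdef
  have hN' : IsOpen (fpar h ⁻¹' N) := hN.preimage (fpar h).continuous
  have hpN : p ∈ fpar h ⁻¹' N := by
    show fpar h p ∈ N
    rw [hpdef, fpar_h]; exact hzN
  obtain ⟨ε1, hε1, hb1⟩ := Metric.isOpen_iff.1 hN' p hpN
  set ε := min ε1 (1 - ‖p‖) with hεdef
  have hε : 0 < ε := lt_min hε1 (sub_pos.2 hp)
  have hbN : ball p ε ⊆ fpar h ⁻¹' N := (ball_subset_ball (min_le_left _ _)).trans hb1
  have hbB : ball p ε ⊆ closedBall (0 : E2) 1 :=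
    (ball_subset_ball (min_le_right _ _)).trans (small_ball _)
  obtain ⟨q, hq, h1, h2⟩ := exists_q p hε
  let ω' := ω.pull (fpar h) (closedBall 0 1 \ {p}) (fun _ hx => hY (fpar_mem h hz hx))
  have hseg : ∀ k, ∀ x y, x ∈ ball p ε → y ∈ ball p ε → x ∈ O p k → y ∈ O p k →
      R H (φ0 (fpar h x) * ω'.g x y) (φ0 (fpar h y)) := by
    intro k x y hx hy hxk hyk
    have hs : segment ℝ x y ⊆ ball p ε ∩ O p k :=
      ((convex_ball p ε).inter (O_convex p k)).segment_subset ⟨hx, hxk⟩ ⟨hy, hyk⟩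
    exact h0 _ _ ((Path.segment x y).map (fpar h).continuous) (fun t =>
      ⟨fpar_mem h hz ⟨hbB (seg_mem hs t).1, O_ne (seg_mem hs t).2⟩, hbN (seg_mem hs t).1⟩)
  obtain ⟨φ, hφ, hφ'⟩ := disc p ω' H q (fun k => hbB (hq k)) h1 h2 (fun k => φ0 (fpar h (q k)))
    (fun k => hseg (k + 1) _ _ (hq k) (hq (k + 1)) (h2 k) (h1 (k + 1)))
  refine ⟨_, transfer ω H h hz hY φ hφ, ?_⟩
  have hc : Continuous (fun x : S => (h x : E2)) := continuous_subtype_val.comp h.continuous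
  have hev : ∀ᶠ x : S in 𝓝 (⟨z, hz⟩ : S), (h x : E2) ∈ ball p ε :=
    hc.continuousAt.eventually (isOpen_ball.mem_nhds (mem_ball_self hε))
  rw [nhdsWithin_eq_map_subtype_coe hz, eventually_map]
  filter_upwards [hev] with x hx hxz
  have hm := h_mem h hz (⟨x.2, hxz⟩ : (x : X) ∈ S \ {z})
  obtain ⟨k, hk⟩ := O_cov hm.2
  show R H (φ (kch h x)) (φ0 x)
  rw [kch_eq h x.2]
  have h3 := (hφ' k _ hm.1 hk).trans (hseg k _ _ (hq k) hx (h1 k) hk)
  rwa [fpar_h] at h3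

end link

end Pool.Agent.H.MP_242373_co
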