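import Mathlib
import Pool.Agent.H.MP_242373_co.B
import Pool.Agent.H.MP_242373_co.C

set_option autoImplicit false

namespace Pool.Agent.H.MP_242373_co

open Set Topology Filter Metric

variable {V : Type} [Fintype V] [DecidableEq V] {G : Type} [Group G]

/-- geometric realisation -/
def real (K : Finset (Finset V)) : Set (V → ℝ) :=
  {x | (∀ i, 0 ≤ x i) ∧ ∑ i, x i = 1 ∧ ∃ σ ∈ K, ∀ i, i ∉ σ → x i = 0}

/-- a vertex as a point -/
def e (v : V) : V → ℝ := Pi.single v 1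

/-- realisation minus the closed edge -/
def Z (u w : V) (L : Finset (Finset V)) : Set (V → ℝ) := {x | x ∈ real L ∧ x u + x w < 1}

/-- simplex minus the closed edge -/
def W (u w : V) (σ : Finset V) : Set (V → ℝ) :=
  {x | (∀ i, 0 ≤ x i) ∧ ∑ i, x i = 1 ∧ (∀ i, i ∉ σ → x i = 0) ∧ x u + x w < 1}

theorem W_convex (u w : V) (σ : Finset V) : Convex ℝ (W u w σ) := by
  intro x hx y hy a b ha hb hab
  refine ⟨fun i => ?_, ?_, fun i hi => ?_, ?_⟩
  · simp only [Pi.add_apply, Pi.smul_apply, smul_eq_mul]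
    exact add_nonneg (mul_nonneg ha (hx.1 i)) (mul_nonneg hb (hy.1 i))
  · simp only [Pi.add_apply, Pi.smul_apply, smul_eq_mul]
    rw [Finset.sum_add_distrib, ← Finset.mul_sum, ← Finset.mul_sum, hx.2.1, hy.2.1]
    linarith
  · simp [hx.2.2.1 i hi, hy.2.2.1 i hi]
  · simp only [Pi.add_apply, Pi.smul_apply, smul_eq_mul]
    have h1 := hx.2.2.2
    have h2 := hy.2.2.2
    rcases eq_or_lt_of_le ha with h | h
    · have hb1 : b = 1 := by linarith
      rw [← h, hb1]; linarith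
    · have h3 := mul_lt_mul_of_pos_left h1 h
      have h4 := mul_le_mul_of_nonneg_left h2.le hb
      nlinarith

theorem W_sub {u w : V} {σ : Finset V} {L : Finset (Finset V)} (h : σ ∈ L) :
    W u w σ ⊆ Z u w L := fun _ hx => ⟨⟨hx.1, hx.2.1, σ, h, hx.2.2.1⟩, hx.2.2.2⟩

theorem Z_W {u w : V} {L : Finset (Finset V)} {x : V → ℝ} (hx : x ∈ Z u w L) :
    ∃ σ ∈ L, x ∈ W u w σ := by
  obtain ⟨⟨h1, h2, σ, hσ, h3⟩, h4⟩ := hx
  exact ⟨σ, hσ, h1, h2, h3, h4⟩

theorem W_supp {u w : V} {σ : Finset V} {x : V → ℝ} (hx : x ∈ W u w σ) {k : V} (hk : 0 < x k) :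
    k ∈ σ := by
  by_contra h
  exact hk.ne' (hx.2.2.1 k h)

theorem e_mem_W {u w : V} {σ : Finset V} {k : V} (hk : k ∈ σ) (h1 : k ≠ u) (h2 : k ≠ w) :
    e k ∈ W u w σ := by
  refine ⟨fun i => ?_, by simp [e], fun i hi => ?_, ?_⟩
  · simp only [e, Pi.single_apply]; split_ifs <;> norm_num
  · have : i ≠ k := fun h => hi (h ▸ hk)
    simp [e, this]
  · simp [e, h1.symm, h2.symm]

theorem sum_split {u w : V} (huw : u ≠ w) (x : V → ℝ) :
    ∑ i, x i = x u + x w + ∑ i ∈ (Finset.univ.erase u).erase w, x i := by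
  rw [← Finset.add_sum_erase _ _ (Finset.mem_univ u),
    ← Finset.add_sum_erase _ _ (Finset.mem_erase.2 ⟨huw.symm, Finset.mem_univ w⟩), add_assoc]

theorem exists_pos {u w : V} (huw : u ≠ w) {x : V → ℝ} (h1 : ∀ i, 0 ≤ x i) (h2 : ∑ i, x i = 1)
    (h3 : x u + x w < 1) : ∃ i, i ≠ u ∧ i ≠ w ∧ 0 < x i := by
  rw [sum_split huw] at h2
  have : 0 < ∑ i ∈ (Finset.univ.erase u).erase w, x i := by linarith
  obtain ⟨i, hi, hi'⟩ := (Finset.sum_pos_iff_of_nonneg (fun i _ => h1 i)).1 this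
  simp only [Finset.mem_erase] at hi
  exact ⟨i, hi.2.1, hi.1, hi'⟩

theorem lt_of_pos {u w : V} (huw : u ≠ w) {x : V → ℝ} (h1 : ∀ i, 0 ≤ x i) (h2 : ∑ i, x i = 1)
    {i : V} (hu : i ≠ u) (hw : i ≠ w) (hi : x i ≠ 0) : x u + x w < 1 := by
  rw [sum_split huw] at h2
  have : 0 < ∑ i ∈ (Finset.univ.erase u).erase w, x i :=
    (Finset.sum_pos_iff_of_nonneg (fun i _ => h1 i)).2
      ⟨i, by simp [hu, hw], lt_of_le_of_ne (h1 i) hi.symm⟩
  linarith

theorem Z_eq {u w : V} (huw : u ≠ w) (K : Finset (Finset V)) :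
    real K \ segment ℝ (e u) (e w) = Z u w K := by
  ext x
  constructor
  · rintro ⟨hx, hn⟩
    refine ⟨hx, ?_⟩
    by_contra hc
    apply hn
    have h0 : ∀ i, i ≠ u → i ≠ w → x i = 0 := by
      intro i hu hw
      by_contra hi
      exact hc (lt_of_pos huw hx.1 hx.2.1 hu hw hi)
    have hs : x u + x w = 1 := by
      have := sum_split huw x
      rw [hx.2.1, Finset.sum_eq_zero] at this
      · linarith
      · intro i hi
        simp only [Finset.mem_erase] at hi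
        exact h0 i hi.2.1 hi.1
    refine ⟨x u, x w, hx.1 u, hx.1 w, hs, ?_⟩
    funext i
    by_cases hu : i = u
    · subst hu; simp [e, huw]
    · by_cases hw : i = w
      · subst hw; simp [e, hu]
      · simp [e, hu, hw, h0 i hu hw]
  · rintro ⟨hx, hlt⟩
    refine ⟨hx, ?_⟩
    rintro ⟨a, b, -, -, hab, rfl⟩
    simp [e, huw, huw.symm] at hlt
    linarith

theorem realize {u w : V} (huw : u ≠ w) {Y : Set (V → ℝ)} (ω : Hol (V → ℝ) Y G) (H : Subgroup G)
    {L : Finset (Finset V)} (hL : Down L) (hY : Z u w L ⊆ Y) (φV : V → G)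
    (hφ : ∀ x y, {x, y} ∈ L → x ≠ u → x ≠ w → y ≠ u → y ≠ w →
      R H (φV x * ω.g (e x) (e y)) (φV y)) :
    ∃ φ : (V → ℝ) → G, Triv ω H (Z u w L) φ ∧
      ∀ x, {x} ∈ L → x ≠ u → x ≠ w → R H (φ (e x)) (φV x) := by
  have : Nonempty V := ⟨u⟩
  have hpos : ∀ k : V, Convex ℝ {x : V → ℝ | 0 < x k} := fun k =>
    convex_halfSpace_gt (f := fun x : V → ℝ => x k) ⟨fun _ _ => rfl, fun _ _ => rfl⟩ 0
  have hek : ∀ k : V, e k ∈ {x : V → ℝ | 0 < x k} := fun k => by simp [e]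
  obtain ⟨φ, h1, h2⟩ := cover ω H (Z u w L) hY {k | {k} ∈ L ∧ k ≠ u ∧ k ≠ w}
    (fun k => {x | 0 < x k}) e φV (fun k => isOpen_lt continuous_const (continuous_apply k))
    (by
      intro x hx
      obtain ⟨σ, hσ, hxσ⟩ := Z_W hx
      obtain ⟨i, hu, hw, hi⟩ := exists_pos huw hxσ.1 hxσ.2.1 hxσ.2.2.2
      exact ⟨i, ⟨hL _ hσ _ (by simpa using W_supp hxσ hi), hu, hw⟩, hi⟩)
    (by
      intro k hk y hy a b ha hb hab
      obtain ⟨σ, hσ, hyσ⟩ := Z_W hy.1
      have := ((W_convex u w σ).inter (hpos k)) ⟨e_mem_W (W_supp hyσ hy.2) hk.2.1 hk.2.2, hek k⟩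
        ⟨hyσ, hy.2⟩ ha hb hab
      exact ⟨W_sub hσ this.1, this.2⟩)
    (fun k hk => ⟨W_sub hk.1 (e_mem_W (by simp) hk.2.1 hk.2.2), hek k⟩)
    (by
      intro j hj k hk x hx hxj hxk
      obtain ⟨σ, hσ, hxσ⟩ := Z_W hx
      have hjσ := W_supp hxσ hxj
      have hkσ := W_supp hxσ hxk
      rw [← ω.coc (W_convex u w σ) ((W_sub hσ).trans hY) (e_mem_W hjσ hj.2.1 hj.2.2)
        (e_mem_W hkσ hk.2.1 hk.2.2) hxσ, ← mul_assoc]
      refine (hφ j k (hL _ hσ _ ?_) hj.2.1 hj.2.2 hk.2.1 hk.2.2).mul _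
      intro c hc
      simp only [Finset.mem_insert, Finset.mem_singleton] at hc
      rcases hc with rfl | rfl <;> assumption)
  refine ⟨φ, h1, fun x hx hu hw => ?_⟩
  have hm : e x ∈ Z u w L := W_sub hx (e_mem_W (by simp) hu hw)
  have := h2 x ⟨hx, hu, hw⟩ (e x) hm (hek x)
  rwa [ω.g_self (hY hm), mul_one] at this

theorem Z_comm (u w : V) (L : Finset (Finset V)) : Z u w L = Z w u L := by
  ext x; simp [Z, add_comm]

theorem Z_mono {u w : V} {L K : Finset (Finset V)} (h : L ⊆ K) : Z u w L ⊆ Z u w K := by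
  intro x hx
  obtain ⟨σ, hσ, hxσ⟩ := Z_W hx
  exact W_sub (h hσ) hxσ

theorem link_eq {u w : V} (huw : u ≠ w) (K : Finset (Finset V)) :
    real (link K u) \ {e w} = Z u w (link K u) := by
  rw [← Z_eq huw]
  ext x
  constructor
  · rintro ⟨hx, hn⟩
    refine ⟨hx, ?_⟩
    rintro ⟨a, b, -, -, hab, rfl⟩
    obtain ⟨σ, hσ, h0⟩ := hx.2.2
    have h1 := h0 u (mem_link.1 hσ).2.1
    simp [e, huw] at h1
    apply hn
    have hb : b = 1 := by linarith
    simp [h1, hb]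
  · rintro ⟨hx, hn⟩
    refine ⟨hx, fun h => hn ?_⟩
    rw [mem_singleton_iff.1 h]
    exact right_mem_segment _ _ _

theorem link_sub (K : Finset (Finset V)) (u : V) : link K u ⊆ K := Finset.filter_subset _ _

theorem vert_gauge {u w : V} {Y : Set (V → ℝ)} (ω : Hol (V → ℝ) Y G)
    (H : Subgroup G) {K : Finset (Finset V)} (hK : Down K) (d : V) (φ : (V → ℝ) → G)
    (hφ : Triv ω H (Z u w (link K d)) φ) (x y : V) (h : {d, x, y} ∈ K) (hxd : x ≠ d) (hyd : y ≠ d)
    (h1 : x ≠ u) (h2 : x ≠ w) (h3 : y ≠ u) (h4 : y ≠ w) :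
    R H (φ (e x) * ω.g (e x) (e y)) (φ (e y)) := by
  have hm : {x, y} ∈ link K d := mem_link.2 ⟨hK _ h _ (Finset.subset_insert _ _),
    by simp [hxd.symm, hyd.symm], h⟩
  apply hφ.seg
  exact ((W_convex u w {x, y}).segment_subset (e_mem_W (by simp) h1 h2)
    (e_mem_W (by simp) h3 h4)).trans (W_sub hm)

theorem main_triv {u w : V} (huw : u ≠ w) {K : Finset (Finset V)} (hK : Down K) (hNE : NE K)
    (he : {u, w} ∈ K) (ω : Hol (V → ℝ) (Z u w K) G)
    (hw : e w ∈ real (link K u)) (h1 : real (link K u) ≃ₜ closedBall (0 : E2) 1)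
    (hp1 : ‖(h1 ⟨e w, hw⟩ : E2)‖ < 1)
    (hu : e u ∈ real (link K w)) (h2 : real (link K w) ≃ₜ closedBall (0 : E2) 1)
    (hp2 : ‖(h2 ⟨e u, hu⟩ : E2)‖ < 1) :
    ∃ (m : G) (φ : (V → ℝ) → G), Triv ω (Subgroup.zpowers m) (Z u w K) φ := by
  have hA1 : real (link K u) \ {e w} = Z u w (link K u) := link_eq huw K
  have hA2 : real (link K w) \ {e u} = Z u w (link K w) := by
    rw [Z_comm]; exact link_eq huw.symm K
  obtain ⟨m, φu, hφu⟩ := link_i ω h1 hw hp1 (hA1 ▸ Z_mono (link_sub K u))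
  rw [hA1] at hφu
  set H := Subgroup.zpowers m
  have gu := vert_gauge ω H hK u φu hφu
  let L' := (link K w).filter (fun σ => insert u σ ∈ link K w)
  have hL'd : Down L' := by
    intro σ hσ τ hτ
    rw [Finset.mem_filter] at hσ ⊢
    exact ⟨hK.link w _ hσ.1 _ hτ, hK.link w _ hσ.2 _ (Finset.insert_subset_insert _ hτ)⟩
  have hL's : L' ⊆ link K w := Finset.filter_subset _ _
  obtain ⟨φ0, hφ0, hφ0'⟩ := realize huw ω H hL'd (Z_mono (hL's.trans (link_sub K w)))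
    (fun x => φu (e x)) (by
      intro x y hxy a1 a2 a3 a4
      exact gu x y (mem_link.1 (Finset.mem_filter.1 hxy).2).1 a1 a3 a1 a2 a3 a4)
  obtain ⟨φw, hφw, hev⟩ := link_ii ω H h2 hu hp2 (hA2 ▸ Z_mono (link_sub K w)) {x | 0 < x u}
    (isOpen_lt continuous_const (continuous_apply u)) (by simp [e]) φ0 (hφ0.mono (by
      rw [hA2]
      rintro x ⟨hx, hxu⟩
      obtain ⟨σ, hσ, hxσ⟩ := Z_W hx
      refine W_sub (Finset.mem_filter.2 ⟨hσ, ?_⟩) hxσ
      rw [Finset.insert_eq_of_mem (W_supp hxσ hxu)]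
      exact hσ))
  rw [hA2] at hφw
  have gw := vert_gauge ω H hK w φw hφw
  obtain ⟨φV, hφV⟩ := gauge2 H (fun x y => ω.g (e x) (e y)) u w huw hNE hK he
    (by
      intro x y z hm a1 a2 a3 a4 a5 a6
      exact ω.coc (W_convex u w {x, y, z}) (W_sub hm) (e_mem_W (by simp) a1 a2)
        (e_mem_W (by simp) a3 a4) (e_mem_W (by simp) a5 a6))
    (fun x => φu (e x)) (fun x => φw (e x))
    (fun x y hm a1 a2 a3 a4 => gu x y hm a1 a3 a1 a2 a3 a4)
    (fun x y hm a1 a2 a3 a4 => gw x y hm a2 a4 a1 a2 a3 a4)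
    (by
      intro x hm a1 a2
      have hl : {u, x} ∈ link K w := mem_link.2 ⟨hK _ hm _ (by intro c; simp; tauto),
        by simp [huw.symm, a2.symm], Finset.insert_comm u w _ ▸ hm⟩
      have hl' : {u, x} ∈ L' := Finset.mem_filter.2 ⟨hl, by simpa using hl⟩
      let y : ℝ → V → ℝ := fun t => (1 - t) • e u + t • e x
      have hyW : ∀ t, t ∈ Ioc (0 : ℝ) 1 → y t ∈ W u w {u, x} := by
        intro t ht
        refine ⟨fun i => ?_, ?_, fun i hi => ?_, ?_⟩
        · simp only [y, e, Pi.add_apply, Pi.smul_apply, smul_eq_mul, Pi.single_apply]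
          have := ht.1
          have := ht.2
          split_ifs <;> linarith
        · simp only [y, Pi.add_apply, Pi.smul_apply, smul_eq_mul]
          rw [Finset.sum_add_distrib, ← Finset.mul_sum, ← Finset.mul_sum]
          simp [e]
        · simp only [Finset.mem_insert, Finset.mem_singleton, not_or] at hi
          simp [y, e, hi.1, hi.2]
        · simp [y, e, a1.symm, a2.symm, huw.symm, ht.1]
      have hy0 : y 0 = e u := by simp [y]
      have hyc : Continuous y := by fun_prop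
      have htend : Tendsto y (𝓝[Ioc (0 : ℝ) 1] 0) (𝓝[real (link K w)] (e u)) := by
        apply tendsto_nhdsWithin_of_tendsto_nhds_of_eventually_within
        · rw [← hy0]
          exact hyc.continuousAt.tendsto.mono_left nhdsWithin_le_nhds
        · filter_upwards [self_mem_nhdsWithin] with t ht
          exact (W_sub hl (hyW t ht)).1
      have hne : (𝓝[Ioc (0 : ℝ) 1] 0).NeBot := left_nhdsWithin_Ioc_neBot one_pos
      obtain ⟨t, ht1, ht2⟩ := ((htend.eventually hev).and self_mem_nhdsWithin).exists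
      have hyt := hyW t ht2
      have hneq : y t ≠ e u := by
        intro h
        have := hyt.2.2.2
        rw [h] at this
        simp [e, huw.symm] at this
      have hs : segment ℝ (y t) (e x) ⊆ W u w {u, x} :=
        (W_convex u w _).segment_subset hyt (e_mem_W (by simp) a1 a2)
      have b1 := hφw.seg (hs.trans (W_sub hl))
      have b2 := hφ0.seg (hs.trans (W_sub hl'))
      have b3 := hφ0' x (hL'd _ hl' _ (by simp)) a1 a2
      exact (b3.symm.trans b2.symm).trans (((ht1 hneq).symm.mul _).trans b1))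
  obtain ⟨φ, hφ, -⟩ := realize huw ω H hK subset_rfl φV hφV
  exact ⟨m, φ, hφ⟩

theorem main {u w : V} (huw : u ≠ w) {K : Finset (Finset V)} (hK : Down K) (hNE : NE K)
    (he : {u, w} ∈ K)
    (hw : e w ∈ real (link K u)) (h1 : real (link K u) ≃ₜ closedBall (0 : E2) 1)
    (hp1 : ‖(h1 ⟨e w, hw⟩ : E2)‖ < 1)
    (hu : e u ∈ real (link K w)) (h2 : real (link K w) ≃ₜ closedBall (0 : E2) 1)
    (hp2 : ‖(h2 ⟨e u, hu⟩ : E2)‖ < 1) (Y : Set (V → ℝ))
    (hY : Y = real K \ segment ℝ (e u) (e w)) (y0 : Y) : IsCyclic (FundamentalGroup Y y0) := by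
  rw [Z_eq huw] at hY
  subst hY
  obtain ⟨m, φ, h⟩ := main_triv huw hK hNE he (piHol _ y0) hw h1 hp1 hu h2 hp2
  exact cyclic_of_triv _ y0 m φ h

end Pool.Agent.H.MP_242373_co
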